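import Pool.Agent.W644.CY.R1

/-!
# Chern characters `K_m(K[G]) → HC_{m+2j}(K[G])` for all groups `G`, fields `K` of characteristic 0

Let `K` be a field of characteristic zero and `G` any group. Rationally the cyclic homology of
`K[G]` is the sum over the conjugacy classes of elements `P` of `G` of
`⨁_{i ≥ 0} H_{*-2i}(C(P)/⟨P⟩; K)` (for `P` of finite order) resp. `H_*(C(P)/⟨P⟩; K)` (for `P` of
infinite order). The Chern character sends `K_m(K[G])` to `HC_{m+2j}(K[G])`, `j ≥ 0`: it is the
composition of the Hurewicz map `K_m(K[G]) → H_m(GL(K[G]))`, of the inclusion of `H_m(GL(K[G]); ℚ)`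
as a direct summand of `HC_{m+2j}(ℚ[GL(K[G])])_{[1]} = ⨁_{i ≥ 0} H_{m+2j-2i}(GL(K[G]); ℚ)` and of
the map induced by `K[GL_r(K[G])] → M_r(K[G])`. If the K-theoretic Farrell-Jones conjecture holds
for `K[G]`, then the component of the Chern character in `H_{m+2j}(C(P)/⟨P⟩; K)` is zero for all
`j ≥ 1` and all `P`, and also for `j = 0` if `P` has infinite order.

We prove, for every group `G`, that this is so for `j ≥ 1` and `P` of finite order, and in the
remaining cases for all groups in which elements of infinite order are not too divisible, in
particular for all groups which are linear over a field of characteristic zero.  Homology classes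
of the groups `C(P)/⟨P⟩` are detected here by cocycles with values in a finitely generated subring
of `K`, for example `ℤ`.
-/

set_option autoImplicit false

namespace Pool.Agent.Results.MP_f7db47_al.ChernCharacters

open Pool.Agent.W644.CY

universe u v w x y

/-- Let `K` be a field of characteristic zero, `G` a group and `c` a class cocycle of degree
`n + 1 ≥ 1` on `G` (a family of alternating homogeneous cocycles `c P` of degree `n + 1` on `G`,
`P ∈ G`, invariant under multiplication of each variable by `P`, and equivariant under conjugation)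
with values in a finitely generated subring of `K`. Suppose that
(a) `c P = 0` for all `P` of infinite order; or
(b) for every finitely generated subgroup `H` of `G` and every `g ∈ H` of infinite order there are
infinitely many primes `p` such that for some `t` the element `g` has no `p ^ t`-th root in `H`; or
(c) `G` is linear over a field of characteristic zero.

(1) Let `θ` be a homomorphism (which need not preserve `1`) from a group `𝒢` to the `r × r`
matrices over `K[G]`, for example the inclusion of the group of invertible matrices, and let `z` be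
a cycle of degree `n + 1` of Connes' complex of `ℤ[𝒢]`, component of the conjugacy class of `1`.
Then the value of `c` on `θ z` is, up to the factor `(n + 2)!`, the value of the restriction of `c`
to the elements of finite order on the alternation of `z`; in particular it depends only on
the image of `z` in `H_{n+1}(𝒢; ℚ)`, and is zero if this image is zero.
(2) For every idempotent `r × r` matrix `e` over `K[G]` the value of `c` on `tr (e ⊗ ⋯ ⊗ e)`
(`n + 2` factors) is zero. -/
theorem result (K : Type u) [Field K] [CharZero K] (G : Type v) [Group G] (r : Type w) [Fintype r]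
    [DecidableEq r] (n : ℕ) (c : G → (Fin (n + 2) → G) → K) (hc : IsClassCocycle c)
    (s : Finset K) (hs : ∀ P y, c P y ∈ Algebra.adjoin ℤ (s : Set K))
    (hG : (∀ P y, ¬ IsOfFinOrder P → c P y = 0) ∨
      (∀ H : Subgroup G, H.FG → ∀ g ∈ H, ¬ IsOfFinOrder g →
        {p : ℕ | p.Prime ∧ ∃ t : ℕ, ∀ x ∈ H, x ^ p ^ t ≠ g}.Infinite) ∨
      (∃ (L : Type x) (_ : Field L) (_ : CharZero L) (N : ℕ) (φ : G →* GL (Fin N) L),
        Function.Injective φ)) :
    (∀ (𝒢 : Type y) [Group 𝒢] (θ : 𝒢 →ₙ* Matrix r r (MonoidAlgebra K G))
        (z : (Fin (n + 2) → 𝒢) →₀ ℤ), IsCyclicCycle z →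
      ((n + 2).factorial : K) * chern θ c z =
          chern θ (restrictTo {P | IsOfFinOrder P} c) (alternation z) ∧
        (IsRationallyZero z → chern θ c z = 0)) ∧
      ∀ e : Matrix r r (MonoidAlgebra K G), e * e = e →
        classPairing c (fun _ : Fin (n + 2) => e) = 0 := by
  have hG' : ∀ H : Subgroup G, H.FG → ∀ g ∈ H, ¬ IsOfFinOrder g → (∃ y, c g y ≠ 0) →
      {p : ℕ | p.Prime ∧ ∃ t : ℕ, ∀ x ∈ H, x ^ p ^ t ≠ g}.Infinite := by
    rintro H hH g hg hinf ⟨y, hy⟩
    rcases hG with h | h | ⟨L, iL, iC, N, φ, hφ⟩
    · exact absurd (h g y hinf) hy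
    · exact h H hH g hg hinf
    · exact linear_inf φ hφ H hH g hg hinf
  refine ⟨fun 𝒢 _ θ z hz => ⟨r1_main θ c hc s hs hG' z hz, fun h0 =>
    r1_zero θ c hc s hs hG' z hz h0⟩, fun e he => r1_idem c hc s hs hG' e he⟩

end Pool.Agent.Results.MP_f7db47_al.ChernCharacters
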